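import Mathlib

set_option autoImplicit false

namespace Pool.Agent.Results.MP_33f3d1_co.Counter

/-- `Y` admits a relating retraction of `X` onto it. -/
def IsRelRetract {X : Type} [PartialOrder X] (Y : Set X) : Prop :=
  ∃ r : X → X, Monotone r ∧ (∀ x, r x ∈ Y) ∧ (∀ y ∈ Y, r y = y) ∧
    ∀ x, x ∉ Y → (x ≤ r x ∨ r x ≤ x)

/-- A relating retract no proper nonempty subset of which is a relating retract of `X`. -/
def IsMinRelRetract {X : Type} [PartialOrder X] (Y : Set X) : Prop :=
  IsRelRetract Y ∧ ∀ Z : Set X, Z ⊂ Y → Z.Nonempty → ¬ IsRelRetract Z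

def P : Type := Fin 5

instance : Fintype P := inferInstanceAs (Fintype (Fin 5))
instance : DecidableEq P := inferInstanceAs (DecidableEq (Fin 5))

def leb (a b : Fin 5) : Bool :=
  a == b || a == 0 || (a == 1 && (b == 3 || b == 4)) || (a == 2 && b == 4)

instance : PartialOrder P where
  le a b := leb a b = true
  le_refl := by decide
  le_trans := by decide
  le_antisymm := by decide

instance : DecidableRel (fun a b : P => a ≤ b) := fun a b =>
  inferInstanceAs (Decidable (leb a b = true))

def p (i : Fin 5) : P := i

lemma min0 : IsMinRelRetract ({p 0} : Set P) := by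
  refine ⟨⟨fun _ => p 0, monotone_const, fun _ => rfl, fun y hy => hy.symm, fun x _ => ?_⟩, ?_⟩
  · revert x; intro x _; right; revert x; decide
  · intro Z hZ hne _
    exact hZ.ne (hne.subset_singleton_iff.1 hZ.subset)

def rr : P → P := ![p 1, p 1, p 4, p 1, p 4]

lemma min1 : IsMinRelRetract ({p 1, p 4} : Set P) := by
  refine ⟨⟨rr, ?_, ?_, ?_, fun x _ => ?_⟩, ?_⟩
  · have : ∀ a b : P, a ≤ b → rr a ≤ rr b := by decide
    exact fun a b h => this a b h
  · have : ∀ a : P, rr a = p 1 ∨ rr a = p 4 := by decide
    exact this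
  · rintro y (rfl | rfl) <;> rfl
  · have : ∀ a : P, a ≤ rr a ∨ rr a ≤ a := by decide
    exact this x
  · rintro Z hZ - ⟨r, -, h1, -, h3⟩
    have n2 : p 2 ∉ Z := fun h => by
      have := hZ.subset h
      revert this
      simp only [Set.mem_insert_iff, Set.mem_singleton_iff]
      decide
    have n3 : p 3 ∉ Z := fun h => by
      have := hZ.subset h
      revert this
      simp only [Set.mem_insert_iff, Set.mem_singleton_iff]
      decide
    have a4 : p 4 ∈ Z := by
      rcases hZ.subset (h1 (p 2)) with h | h
      · have := h3 _ n2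
        rw [h] at this
        exact absurd this (by decide)
      · rw [← Set.mem_singleton_iff.1 h]; exact h1 _
    have a1 : p 1 ∈ Z := by
      rcases hZ.subset (h1 (p 3)) with h | h
      · rw [← h]; exact h1 _
      · have := h3 _ n3
        rw [Set.mem_singleton_iff.1 h] at this
        exact absurd this (by decide)
    refine hZ.not_superset ?_
    rintro y (rfl | rfl)
    · exact a1
    · exact a4

/-- A finite poset may have two minimal relating retracts that are not order-isomorphic. -/
theorem result : ¬ ∀ (X : Type) [PartialOrder X] [Finite X] (Y Z : Set X),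
    IsMinRelRetract Y → IsMinRelRetract Z → Nonempty (Y ≃o Z) := by
  intro h
  obtain ⟨e⟩ := h P _ _ min0 min1
  have h1 : e.symm ⟨p 1, Or.inl rfl⟩ = e.symm ⟨p 4, Or.inr rfl⟩ := Subsingleton.elim _ _
  have h2 := congrArg Subtype.val (e.symm.injective h1)
  exact absurd h2 (by decide)

end Pool.Agent.Results.MP_33f3d1_co.Counter
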